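import Pool.Agent.D0H47.GR.Lim2

/-!
Critical bond percolation on the square lattice: connection probabilities in long rectangles and
corridors, uniformly in the mesh and in the shape. Exact exponential asymptotics
`(1 + O(exp (-c l / n))) * α * β * exp (-l / ξ n)` for two arbitrary rooms joined by a corridor of
width `n` and length `l`; the correlation length `ξ n` of the strip has increments between two positive
constants; the logarithm of the crossing probability of rectangles is bi-Lipschitz in the modulus.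
-/

set_option autoImplicit false

namespace Pool.Agent.Results.MP_35f495_pr.LongRectangles

open MeasureTheory Filter Topology

/-- The square lattice. -/
def Z2 : SimpleGraph (ℤ × ℤ) where
  Adj u v := |u.1 - v.1| + |u.2 - v.2| = 1
  symm := ⟨fun u v h => by rw [abs_sub_comm v.1, abs_sub_comm v.2]; exact h⟩
  loopless := ⟨fun u h => by simp at h⟩

/-- Critical bond percolation: every edge is open (`true`) with probability `1/2`,
independently. -/
noncomputable def crit : Measure (Z2.edgeSet → Bool) :=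
  Measure.infinitePi (fun _ => ProbabilityTheory.bernoulliMeasure true false
    ⟨1/2, by norm_num, by norm_num⟩)

/-- The graph of the open edges with both ends in `D`. -/
def openGraph (D : Set (ℤ × ℤ)) (ω : Z2.edgeSet → Bool) : SimpleGraph (ℤ × ℤ) :=
  SimpleGraph.fromEdgeSet {e | (∃ he : e ∈ Z2.edgeSet, ω ⟨e, he⟩ = true) ∧ ∀ v ∈ e, v ∈ D}

/-- The rectangle `[0,m] × [0,n]`. -/
def rect (m n : ℕ) : Set (ℤ × ℤ) := {v | (0 ≤ v.1 ∧ v.1 ≤ m) ∧ (0 ≤ v.2 ∧ v.2 ≤ n)}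

/-- The crossing probability `p(m,n)`: the probability that an open path in the rectangle
`[0,m] × [0,n]` joins its left side to its right side. -/
noncomputable def cross (m n : ℕ) : ℝ :=
  crit.real {ω | ∃ u ∈ {v ∈ rect m n | v.1 = 0}, ∃ v ∈ {v ∈ rect m n | v.1 = (m : ℤ)},
    (openGraph (rect m n) ω).Reachable u v}

/-- The segment `{0} × [0,n]`, the end of a corridor of width `n`. -/
noncomputable def side (n : ℕ) : Finset (ℤ × ℤ) := {0} ×ˢ Finset.Icc 0 (n : ℤ)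

/-- The room `D₁`, the corridor `[0,l] × [0,n]`, and the room `D₂` moved by `(l,0)`. -/
def dumbbell (D₁ D₂ : Finset (ℤ × ℤ)) (l n : ℕ) : Set (ℤ × ℤ) :=
  {v | v ∈ D₁ ∨ v ∈ rect l n ∨ (v.1 - l, v.2) ∈ D₂}

/-- The probability that an open path in the dumbbell joins `S` to `T` moved by `(l,0)`. -/
noncomputable def link (D₁ D₂ : Finset (ℤ × ℤ)) (S T : Set (ℤ × ℤ)) (l n : ℕ) : ℝ :=
  crit.real {ω | ∃ u ∈ S, ∃ v ∈ T,
    (openGraph (dumbbell D₁ D₂ l n) ω).Reachable u (v.1 + l, v.2)}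

/-- `F a b` is the limit of the crossing probabilities of the rectangle `[0,a] × [0,b]` along the
meshes `δ k → 0`, for all `a, b > 0`. -/
def IsLimit (δ : ℕ → ℝ) (F : ℝ → ℝ → ℝ) : Prop :=
  (∀ k, 0 < δ k) ∧ Tendsto δ atTop (𝓝 0) ∧ ∀ a b : ℝ, 0 < a → 0 < b →
    Tendsto (fun k => cross ⌊a / δ k⌋₊ ⌊b / δ k⌋₊) atTop (𝓝 (F a b))

theorem result : ∃ c C : ℝ, 0 < c ∧ 0 < C ∧ ∃ ξ : ℕ → ℝ,
    (∀ n : ℕ, 1 ≤ n →
      -- the correlation length of the strip of width `n` has increments of order one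
      (0 < ξ n ∧ c ≤ ξ (n + 1) - ξ n ∧ ξ (n + 1) - ξ n ≤ C) ∧
      -- crossings of long rectangles
      (∃ A : ℝ, c ≤ A ∧ A ≤ C ∧ ∀ m : ℕ, |cross m n - A * Real.exp (-(m / ξ n))| ≤
        C * Real.exp (-(c * (m / n))) * (A * Real.exp (-(m / ξ n)))) ∧
      -- connections of two arbitrary finite rooms through a long corridor
      ∃ α β : Finset (ℤ × ℤ) → Set (ℤ × ℤ) → ℝ,
        ∀ (D₁ D₂ : Finset (ℤ × ℤ)) (S T : Set (ℤ × ℤ)),
          (∀ v ∈ D₁, v.1 ≤ 0) → (∀ v ∈ D₂, 0 ≤ v.1) → S ⊆ ↑D₁ → T ⊆ ↑D₂ →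
          (c * link D₁ (side n) S (side n) (3 * n) n ≤ α D₁ S ∧
            α D₁ S ≤ C * link D₁ (side n) S (side n) (3 * n) n) ∧
          (c * link (side n) D₂ (side n) T (3 * n) n ≤ β D₂ T ∧
            β D₂ T ≤ C * link (side n) D₂ (side n) T (3 * n) n) ∧
          ∀ l : ℕ, 3 * n ≤ l →
            |link D₁ D₂ S T l n - α D₁ S * β D₂ T * Real.exp (-(l / ξ n))| ≤
              C * Real.exp (-(c * (l / n))) * (α D₁ S * β D₂ T * Real.exp (-(l / ξ n)))) ∧
    -- the logarithm of the crossing probability is bi-Lipschitz in the modulus, for all shapes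
    (∀ m n m' n' : ℕ, 1 ≤ n' → n' ≤ n → n ≤ m → m ≤ m' →
      Real.exp (-C * ((m' : ℝ) / n' - m / n)) * cross m n ≤ cross m' n' ∧
        cross m' n' ≤ Real.exp (-c * ((m' : ℝ) / n' - m / n)) * cross m n) ∧
    -- all scaling limits
    (∀ (δ : ℕ → ℝ) (F : ℝ → ℝ → ℝ), IsLimit δ F →
      (∀ a b a' b' : ℝ, 0 < b' → b' ≤ b → b ≤ a → a ≤ a' →
        Real.exp (-C * (a' / b' - a / b)) * F a b ≤ F a' b' ∧
          F a' b' ≤ Real.exp (-c * (a' / b' - a / b)) * F a b) ∧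
      ∀ b : ℝ, 0 < b → ∃ A κ : ℝ, (c ≤ A ∧ A ≤ C) ∧ (c ≤ κ ∧ κ ≤ C) ∧ ∀ a : ℝ, 0 < a →
        |F a b - A * Real.exp (-(κ * (a / b)))| ≤
          C * Real.exp (-(c * (a / b))) * (A * Real.exp (-(κ * (a / b))))) := by
  have e : ∀ m n : ℕ, cross m n = D0H47.GR.p m n := fun m n => D0H47.GR.cross_rect m n
  have eside : ∀ n : ℕ, side n = D0H47.GR.side n := fun n => rfl
  have el : ∀ {D₁ D₂ : Finset (ℤ × ℤ)} {S T : Set (ℤ × ℤ)} {l n : ℕ}, 2 ≤ l →
      (∀ v ∈ D₁, v.1 ≤ 0) → (∀ v ∈ D₂, 0 ≤ v.1) → link D₁ D₂ S T l n =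
        D0H47.GR.fW n (D0H47.GR.ELf n D₁) S (D0H47.GR.ERf n D₂) T l := by
    intro D₁ D₂ S T l n hl h1 h2
    rw [← D0H47.GR.link_eq hl h1 h2]
    show crit.real {ω | ∃ u ∈ S, ∃ v ∈ T,
      (D0H47.GR.domGraph (D0H47.GR.dumb D₁ D₂ l n) ω).Reachable u (v.1 + l, v.2)} =
      crit.real {ω | ∃ u ∈ S, ∃ v ∈ D0H47.GR.shV l T,
        (D0H47.GR.domGraph (D0H47.GR.dumb D₁ D₂ l n) ω).Reachable u v}
    congr 1
    ext ω
    constructor
    · rintro ⟨u, hu, ⟨v1, v2⟩, hv, h⟩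
      refine ⟨u, hu, (v1 + l, v2), ?_, h⟩
      rw [D0H47.GR.mem_shV]
      simpa using hv
    · rintro ⟨u, hu, ⟨v1, v2⟩, hv, h⟩
      rw [D0H47.GR.mem_shV] at hv
      exact ⟨u, hu, (v1 - l, v2), hv, by simpa using h⟩
  obtain ⟨c1, C1, hc1, hC1, h1⟩ := D0H47.GR.bilip
  obtain ⟨c2, C2, hc2, hC2, h2⟩ := D0H47.GR.corr
  obtain ⟨c3, C3, hc3, hC3, h3⟩ := D0H47.GR.plain
  obtain ⟨c4, C4, hc4, hC4, h4⟩ := D0H47.GR.rooms
  have hlog := Real.log_pos (show (1:ℝ) < 2 by norm_num)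
  set c := min (min c1 c2) (min (min c3 c4) (Real.log 2 / 2)) with hc
  set C := max (max C1 C2) (max (max C3 C4) (98 * Real.log 2)) with hC
  have hc0 : 0 < c := lt_min (lt_min hc1 hc2) (lt_min (lt_min hc3 hc4) (by linarith))
  have hC0 : 0 < C := lt_max_of_lt_left (lt_max_of_lt_left hC1)
  have l1 : c ≤ c1 := (min_le_left _ _).trans (min_le_left _ _)
  have l2 : c ≤ c2 := (min_le_left _ _).trans (min_le_right _ _)
  have l3 : c ≤ c3 := (min_le_right _ _).trans ((min_le_left _ _).trans (min_le_left _ _))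
  have l4 : c ≤ c4 := (min_le_right _ _).trans ((min_le_left _ _).trans (min_le_right _ _))
  have l5 : c ≤ Real.log 2 / 2 := (min_le_right _ _).trans (min_le_right _ _)
  have u1 : C1 ≤ C := (le_max_left _ _).trans (le_max_left _ _)
  have u2 : C2 ≤ C := (le_max_right _ _).trans (le_max_left _ _)
  have u3 : C3 ≤ C := (le_max_left _ _).trans ((le_max_left _ _).trans (le_max_right _ _))
  have u4 : C4 ≤ C := (le_max_right _ _).trans ((le_max_left _ _).trans (le_max_right _ _))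
  have u5 : 98 * Real.log 2 ≤ C := (le_max_right _ _).trans (le_max_right _ _)
  -- change of constants
  have hch : ∀ {c' C' w E x : ℝ}, c ≤ c' → 0 < C' → C' ≤ C → 0 ≤ x → 0 ≤ E →
      |w - E| ≤ C' * Real.exp (-c' * x) * E → |w - E| ≤ C * Real.exp (-(c * x)) * E := by
    intro c' C' w E x k1 k2 k3 k4 k5 k6
    refine k6.trans (mul_le_mul_of_nonneg_right ?_ k5)
    apply mul_le_mul k3 _ (Real.exp_pos _).le hC0.le
    apply Real.exp_le_exp.mpr
    have := mul_le_mul_of_nonneg_right k1 k4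
    linarith
  have hall : ∀ m n m' n' : ℤ, 1 ≤ n' → n' ≤ n → n ≤ m → m ≤ m' →
      Real.exp (-(C * ((m':ℝ) / n' - m / n))) * D0H47.GR.p m n ≤ D0H47.GR.p m' n' ∧
        D0H47.GR.p m' n' ≤ Real.exp (-(c * ((m':ℝ) / n' - m / n))) * D0H47.GR.p m n := by
    intro m n m' n' k1 k2 k3 k4
    obtain ⟨a1, a2⟩ := h1 m n m' n' k1 k2 k3 k4
    have q1 : (1:ℝ) ≤ n' := by exact_mod_cast k1
    have q2 : (n':ℝ) ≤ n := by exact_mod_cast k2
    have q3 : (n:ℝ) ≤ m := by exact_mod_cast k3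
    have q4 : (m:ℝ) ≤ m' := by exact_mod_cast k4
    have q5 : 0 ≤ (m':ℝ) / n' - m / n := by
      have : (m:ℝ) / n ≤ m' / n' := div_le_div₀ (by linarith) q4 (by linarith) q2
      linarith
    have q6 : 0 ≤ D0H47.GR.p m n := D0H47.GR.p_nonneg _ _
    constructor
    · refine le_trans (mul_le_mul_of_nonneg_right (Real.exp_le_exp.mpr ?_) q6) a1
      have := mul_le_mul_of_nonneg_right u1 q5
      linarith
    · refine le_trans a2 (mul_le_mul_of_nonneg_right (Real.exp_le_exp.mpr ?_) q6)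
      have := mul_le_mul_of_nonneg_right l1 q5
      linarith
  have eξ : ∀ (n m : ℕ), Real.exp (-((m : ℝ) / (1 / D0H47.GR.kap n))) =
      Real.exp (-D0H47.GR.kap n * m) := by
    intro n m
    congr 1
    rw [div_div_eq_mul_div, div_one]
    ring
  refine ⟨c, C, hc0, hC0, fun n => 1 / D0H47.GR.kap n, ?_, ?_, ?_⟩
  · intro n hn
    obtain ⟨k1, k2, k3⟩ := h2 n (by exact_mod_cast hn)
    have e1 : ((n + 1 : ℕ) : ℤ) = (n : ℤ) + 1 := by push_cast; rfl
    refine ⟨⟨by positivity, ?_, ?_⟩, ?_, ?_⟩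
    · show c ≤ 1 / D0H47.GR.kap ((n + 1 : ℕ) : ℤ) - 1 / D0H47.GR.kap n
      rw [e1]
      exact l2.trans k2
    · show 1 / D0H47.GR.kap ((n + 1 : ℕ) : ℤ) - 1 / D0H47.GR.kap n ≤ C
      rw [e1]
      exact k3.trans u2
    · obtain ⟨A, a1, a2, a3⟩ := h3 n hn
      refine ⟨A, l3.trans a1, a2.trans u3, ?_⟩
      intro m
      show |cross m n - A * Real.exp (-((m : ℝ) / (1 / D0H47.GR.kap n)))| ≤
        C * Real.exp (-(c * ((m : ℝ) / n))) * (A * Real.exp (-((m : ℝ) / (1 / D0H47.GR.kap n))))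
      rw [eξ, e]
      exact hch l3 hC3 u3 (by positivity)
        (mul_nonneg (hc3.le.trans a1) (Real.exp_pos _).le) (a3 m)
    · obtain ⟨α, β, h5⟩ := h4 n hn
      refine ⟨α, β, ?_⟩
      intro D₁ D₂ S T m1 m2 m3 m4
      obtain ⟨⟨b1, b2⟩, ⟨b3, b4⟩, b5⟩ := h5 D₁ D₂ S T m1 m2 m3 m4
      have s1 : ∀ v ∈ side n, v.1 ≤ 0 := fun v hv => (D0H47.GR.mem_side.mp hv).1.le
      have s2 : ∀ v ∈ side n, 0 ≤ v.1 := fun v hv => (D0H47.GR.mem_side.mp hv).1.ge
      have w1 : 0 ≤ link D₁ (side n) S (side n) (3 * n) n := measureReal_nonneg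
      have w2 : 0 ≤ link (side n) D₂ (side n) T (3 * n) n := measureReal_nonneg
      have w3 := el (S := S) (T := (side n : Set (ℤ × ℤ))) (l := 3 * n) (n := n) (by omega) m1 s2
      have w4 := el (S := (side n : Set (ℤ × ℤ))) (T := T) (l := 3 * n) (n := n) (by omega) s1 m2
      rw [eside] at w1 w2 w3 w4 ⊢
      rw [← w3] at b1 b2
      rw [← w4] at b3 b4
      have hα : 0 ≤ α D₁ S := (mul_nonneg hc4.le w1).trans b1
      have hβ : 0 ≤ β D₂ T := (mul_nonneg hc4.le w2).trans b3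
      refine ⟨⟨(mul_le_mul_of_nonneg_right l4 w1).trans b1,
        b2.trans (mul_le_mul_of_nonneg_right u4 w1)⟩,
        ⟨(mul_le_mul_of_nonneg_right l4 w2).trans b3,
        b4.trans (mul_le_mul_of_nonneg_right u4 w2)⟩, ?_⟩
      intro l hl
      show |link D₁ D₂ S T l n -
          α D₁ S * β D₂ T * Real.exp (-((l : ℝ) / (1 / D0H47.GR.kap n)))| ≤
        C * Real.exp (-(c * ((l : ℝ) / n))) *
          (α D₁ S * β D₂ T * Real.exp (-((l : ℝ) / (1 / D0H47.GR.kap n))))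
      rw [eξ, el (by omega) m1 m2]
      exact hch l4 hC4 u4 (by positivity)
        (mul_nonneg (mul_nonneg hα hβ) (Real.exp_pos _).le) (b5 l hl)
  · intro m n m' n' k1 k2 k3 k4
    have := hall m n m' n' (by exact_mod_cast k1) (by exact_mod_cast k2) (by exact_mod_cast k3)
      (by exact_mod_cast k4)
    rw [e, e]
    simpa only [neg_mul, Int.cast_natCast] using this
  · intro δ F hF
    have hL : D0H47.GR.IsLim δ F := by
      obtain ⟨l1, l2, l3⟩ := hF
      refine ⟨l1, l2, fun x y hx hy => ?_⟩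
      have := l3 x y hx hy
      simp only [e] at this
      exact this
    refine ⟨?_, ?_⟩
    · intro a b a' b' k1 k2 k3 k4
      have := D0H47.GR.lim_bilip hall hL k1 k2 k3 k4
      simpa only [neg_mul] using this
    · intro b hb
      obtain ⟨A, κ, ⟨a1, a2⟩, ⟨a3, a4⟩, a5⟩ := D0H47.GR.lim_plain h3 hL hb
      refine ⟨A, κ, ⟨l3.trans a1, a2.trans u3⟩, ⟨l5.trans a3, a4.trans u5⟩, ?_⟩
      intro a ha
      have h9 := a5 a ha
      rw [neg_mul κ] at h9
      exact hch l3 hC3 u3 (by positivity)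
        (mul_nonneg (hc3.le.trans a1) (Real.exp_pos _).le) h9

end Pool.Agent.Results.MP_35f495_pr.LongRectangles
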