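import Pool.Agent.D0H96.RG.Brg
import Pool.Agent.D0H96.RG.Mixl

/-!
Critical bond percolation on the square lattice: the crossing probabilities of rectangles are
`C^(1,1)` functions of each side length, uniformly in the mesh, their derivatives are comparable
to the crossing probabilities themselves, and their gradient is log-Lipschitz as a function of both side
lengths. Consequently every sequence of meshes has a subsequence along which the crossing
probabilities of all rectangles converge together with their first (discrete) derivatives; every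
scaling limit is continuously differentiable and strictly monotone, its derivatives are Lipschitz in the
same variable and log-Lipschitz in the other one (so it is `C^(1,θ)` for all `θ < 1`), with
quantitative bounds.

Ideas of the proof. (1) The furthest column `M_a` which is reached by an open path from the column
`a` is non-decreasing in `a`, and its law is translation invariant; so `M_a - a` crosses every level
between two far apart translates with a down-step of size one: this gives the lower bound for the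
first difference. (2) For different `a` the extremal clusters are different crossing clusters, and the
mean number of crossing clusters is bounded: this gives the upper bound. (3) The second difference is
a mixed difference, in the left and in the right side, hence it is bounded by the probability of two
independent extremal events, one at each end. (4) By duality the second differences in the height are
bounded, too; expanding a mixed difference with steps `h`, `k` in two ways gives
`h f(k) + k g(h) = O((h ^ 2 + k ^ 2) / n ^ 2)` for the increments `f`, `g` of the two first differences, hence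
`f(2 h) - 2 f(h) = O(h / n ^ 2)` and `f(h) = O(h (1 + log(n / h)) / n ^ 2)`.
-/

namespace Pool.Agent.Results.MP_35f495_pr.RectangleRegularity

open MeasureTheory Filter Topology

/-- The square lattice. -/
def z2 : SimpleGraph (ℤ × ℤ) where
  Adj u v := |u.1 - v.1| + |u.2 - v.2| = 1
  symm := ⟨fun u v h => by rw [abs_sub_comm v.1, abs_sub_comm v.2]; exact h⟩
  loopless := ⟨fun u h => by simp at h⟩

/-- The critical parameter. -/
noncomputable def half : unitInterval := ⟨1/2, by norm_num, by norm_num⟩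

/-- Critical bond percolation: every edge is open (`true`) with probability `1/2`,
independently. -/
noncomputable def law : Measure (z2.edgeSet → Bool) :=
  Measure.infinitePi (fun _ => ProbabilityTheory.bernoulliMeasure true false half)

/-- The graph of the open edges with both ends in the rectangle `[0,m] × [0,n]`. -/
def rectGraph (m n : ℕ) (ω : z2.edgeSet → Bool) : SimpleGraph (ℤ × ℤ) :=
  SimpleGraph.fromEdgeSet {e | (∃ he : e ∈ z2.edgeSet, ω ⟨e, he⟩ = true) ∧
    ∀ v ∈ e, (0 ≤ v.1 ∧ v.1 ≤ m) ∧ (0 ≤ v.2 ∧ v.2 ≤ n)}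

/-- The probability that an open path of the rectangle `[0,m] × [0,n]` joins its left side to its
right side. -/
noncomputable def cross (m n : ℕ) : ℝ :=
  law.real {ω | ∃ y z : ℤ, (0 ≤ y ∧ y ≤ n) ∧ (0 ≤ z ∧ z ≤ n) ∧
    (rectGraph m n ω).Reachable (0, y) ((m : ℤ), z)}

/-- `F a b` is the limit of the crossing probabilities of the rectangle `[0,a] × [0,b]` along the
meshes `δ k → 0`, for all `a, b > 0`. -/
def IsLimit (δ : ℕ → ℝ) (F : ℝ → ℝ → ℝ) : Prop :=
  (∀ k, 0 < δ k) ∧ Tendsto δ atTop (𝓝 0) ∧ ∀ a b : ℝ, 0 < a → 0 < b →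
    Tendsto (fun k => cross ⌊a / δ k⌋₊ ⌊b / δ k⌋₊) atTop (𝓝 (F a b))

/-- The bounds without the mixed differences. -/
theorem first_part (K : ℕ) (hK : 1 ≤ K) : ∃ c C : ℝ, 0 < c ∧ 0 < C ∧
      (∀ m n : ℕ, 1 ≤ n → n ≤ K * m →
        c * cross m n / n ≤ cross m n - cross (m+1) n ∧
        cross m n - cross (m+1) n ≤ C * cross m n / n ∧
        |cross m n - 2 * cross (m+1) n + cross (m+2) n| ≤ C * cross m n / (n:ℝ)^2) ∧
      (∀ m n : ℕ, 2 ≤ m → m ≤ K * n →
        c * (1 - cross m n) / m ≤ cross m (n+1) - cross m n ∧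
        cross m (n+1) - cross m n ≤ C * (1 - cross m n) / m ∧
        |cross m n - 2 * cross m (n+1) + cross m (n+2)| ≤ C * (1 - cross m n) / (m:ℝ)^2) ∧
      (∀ (δ : ℕ → ℝ) (F : ℝ → ℝ → ℝ), IsLimit δ F → ∀ a b : ℝ, 0 < a → 0 < b → b ≤ K * a →
        c * F a b / b ≤ -deriv (fun x => F x b) a ∧
        -deriv (fun x => F x b) a ≤ C * F a b / b ∧
        ∀ a' : ℝ, 0 < a' → b ≤ K * a' →
          |deriv (fun x => F x b) a - deriv (fun x => F x b) a'| ≤ C * |a - a'| / b^2) := by
  have e : ∀ m n : ℕ, cross m n = D0H96.RG.P m n := fun m n => D0H96.RG.cross_eq m n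
  have eL : ∀ (δ : ℕ → ℝ) (F : ℝ → ℝ → ℝ), IsLimit δ F → D0H96.RG.IsLim δ F := by
    rintro δ F ⟨h1, h2, h3⟩
    refine ⟨h1, h2, fun a b ha hb => ?_⟩
    have := h3 a b ha hb
    simp only [e] at this
    exact this
  simp only [e]
  obtain ⟨c, C, hc, hC, H⟩ := D0H96.RG.mainP (4 * K) (by omega)
  refine ⟨c, 16 * C, hc, by positivity, ?_, ?_, ?_⟩
  · intro m n hn hm
    obtain ⟨a1, a2, a3⟩ := H m n hn (hm.trans (by nlinarith))
    have n0 : (0:ℝ) < n := by exact_mod_cast hn
    have p0 := D0H96.RG.P_nonneg m n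
    have q0 : C * D0H96.RG.P m n ≤ 16 * C * D0H96.RG.P m n := by nlinarith [mul_nonneg hC.le p0]
    refine ⟨?_, ?_, ?_⟩
    · rw [div_le_iff₀ n0]; linarith
    · rw [le_div_iff₀ n0]; linarith
    · rw [le_div_iff₀ (by positivity)]; linarith
  · intro m n hm hmn
    have hm1 : m - 1 ≤ 4 * K * (n + 1) := by
      have : K * n ≤ 4 * K * (n+1) := by nlinarith
      omega
    obtain ⟨a1, a2, a3⟩ := H (n+1) (m-1) (by omega) hm1
    have d0 := D0H96.RG.P_dual (m := m) (n := n) (by omega)
    have d1 := D0H96.RG.P_dual (m := m) (n := n+1) (by omega)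
    have d2 := D0H96.RG.P_dual (m := m) (n := n+2) (by omega)
    have e2 : n + 2 + 1 = n + 1 + 2 := by ring
    rw [e2] at d2
    have p0 := D0H96.RG.P_nonneg (n+1) (m-1)
    have mono : D0H96.RG.P (n+1+1) (m-1) ≤ D0H96.RG.P (n+1) (m-1) :=
      D0H96.RG.P_mono (by omega) (by omega) le_rfl
    have m0 : (2:ℝ) ≤ m := by exact_mod_cast hm
    have mc : ((m - 1 : ℕ) : ℝ) = m - 1 := by rw [Nat.cast_sub (by omega)]; norm_num
    rw [mc] at a1 a2 a3
    rw [d0, d1, d2]
    obtain ⟨x, hx⟩ : ∃ x, x = D0H96.RG.P (n+1) (m-1) := ⟨_, rfl⟩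
    obtain ⟨y, hy⟩ : ∃ y, y = D0H96.RG.P (n+1+1) (m-1) := ⟨_, rfl⟩
    obtain ⟨z, hz⟩ : ∃ z, z = D0H96.RG.P (n+1+2) (m-1) := ⟨_, rfl⟩
    rw [← hx, ← hy] at a1 a2 mono
    rw [← hx, ← hy, ← hz] at a3
    rw [← hx] at p0
    rw [← hx, ← hy, ← hz]
    have hCx : 0 ≤ C * x := mul_nonneg hC.le p0
    refine ⟨?_, ?_, ?_⟩
    · rw [div_le_iff₀ (by linarith)]
      nlinarith
    · rw [le_div_iff₀ (by linarith)]
      nlinarith
    · rw [le_div_iff₀ (by positivity)]
      have e3 : (1 - x) - 2 * (1 - y) + (1 - z) = -(x - 2 * y + z) := by ring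
      rw [e3, abs_neg]
      have e4 : (m:ℝ)^2 ≤ 4 * ((m:ℝ) - 1)^2 := by nlinarith
      have e5 := mul_le_mul_of_nonneg_left e4 (abs_nonneg (x - 2 * y + z))
      nlinarith
  · intro δ F hL a b ha hb hab
    obtain ⟨b1, b2, b3⟩ := D0H96.RG.lim_bounds hK hC (fun m n h1 h2 => H m n h1 h2) (eL δ F hL)
      ha hb hab
    have p0 := (D0H96.RG.lim_pos (eL δ F hL) ha hb).le
    refine ⟨b1, b2.trans ?_, b3⟩
    apply div_le_div_of_nonneg_right _ hb.le
    nlinarith [mul_nonneg hC.le p0]

theorem result :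
    (∀ K : ℕ, 1 ≤ K → ∃ c C : ℝ, 0 < c ∧ 0 < C ∧
      -- first and second differences in the width
      (∀ m n : ℕ, 1 ≤ n → n ≤ K * m →
        c * cross m n / n ≤ cross m n - cross (m+1) n ∧
        cross m n - cross (m+1) n ≤ C * cross m n / n ∧
        |cross m n - 2 * cross (m+1) n + cross (m+2) n| ≤ C * cross m n / (n:ℝ)^2) ∧
      -- first and second differences in the height
      (∀ m n : ℕ, 2 ≤ m → m ≤ K * n →
        c * (1 - cross m n) / m ≤ cross m (n+1) - cross m n ∧
        cross m (n+1) - cross m n ≤ C * (1 - cross m n) / m ∧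
        |cross m n - 2 * cross m (n+1) + cross m (n+2)| ≤ C * (1 - cross m n) / (m:ℝ)^2) ∧
      -- mixed differences
      (∀ m n h : ℕ, 2 ≤ m → 1 ≤ h → h ≤ n → n ≤ K * m → m ≤ K * n →
        |(cross m (n+h) - cross (m+1) (n+h)) - (cross m n - cross (m+1) n)| ≤
          C * h * (1 + Real.log (n / h)) / (n:ℝ)^2) ∧
      -- the derivatives of all scaling limits
      (∀ (δ : ℕ → ℝ) (F : ℝ → ℝ → ℝ), IsLimit δ F → ∀ a b : ℝ, 0 < a → 0 < b → b ≤ K * a →
        c * F a b / b ≤ -deriv (fun x => F x b) a ∧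
        -deriv (fun x => F x b) a ≤ C * F a b / b ∧
        (∀ a' : ℝ, 0 < a' → b ≤ K * a' →
          |deriv (fun x => F x b) a - deriv (fun x => F x b) a'| ≤ C * |a - a'| / b^2) ∧
        ∀ b' : ℝ, a ≤ K * b → b < b' → b' < 2 * b →
          |deriv (fun x => F x b') a - deriv (fun x => F x b) a| ≤
            C * (b' - b) * (1 + Real.log (b / (b' - b))) / b^2)) ∧
    -- existence of scaling limits along subsequences
    (∀ δ : ℕ → ℝ, (∀ k, 0 < δ k) → Tendsto δ atTop (𝓝 0) →
      ∃ φ : ℕ → ℕ, StrictMono φ ∧ ∃ F : ℝ → ℝ → ℝ, IsLimit (fun k => δ (φ k)) F) ∧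
    -- all scaling limits are continuously differentiable, the discrete derivatives converge
    (∀ (δ : ℕ → ℝ) (F : ℝ → ℝ → ℝ), IsLimit δ F →
      ContDiffOn ℝ 1 (fun z : ℝ × ℝ => F z.1 z.2) {z | 0 < z.1 ∧ 0 < z.2} ∧
      ∀ a b : ℝ, 0 < a → 0 < b → 0 < F a b ∧ F a b + F b a = 1 ∧
        Tendsto (fun k => (cross (⌊a / δ k⌋₊ + 1) ⌊b / δ k⌋₊ - cross ⌊a / δ k⌋₊ ⌊b / δ k⌋₊) / δ k)
          atTop (𝓝 (deriv (fun x => F x b) a)) ∧
        Tendsto (fun k => (cross ⌊a / δ k⌋₊ (⌊b / δ k⌋₊ + 1) - cross ⌊a / δ k⌋₊ ⌊b / δ k⌋₊) / δ k)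
          atTop (𝓝 (deriv (fun y => F a y) b))) := by
  have e : ∀ m n : ℕ, cross m n = D0H96.RG.P m n := fun m n => D0H96.RG.cross_eq m n
  have eL : ∀ (δ : ℕ → ℝ) (F : ℝ → ℝ → ℝ), IsLimit δ F → D0H96.RG.IsLim δ F := by
    rintro δ F ⟨h1, h2, h3⟩
    refine ⟨h1, h2, fun a b ha hb => ?_⟩
    have := h3 a b ha hb
    simp only [e] at this
    exact this
  refine ⟨fun K hK => ?_, ?_⟩
  · obtain ⟨c, C, hc, hC, A1, A2, A3⟩ := first_part K hK
    obtain ⟨C', hC', B⟩ := D0H96.RG.mixP (2 * K) (by omega)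
    have up : ∀ {x y z : ℝ}, x ≤ C * y / z → 0 ≤ y → 0 ≤ z → x ≤ (C + C') * y / z := by
      intro x y z h hy hz
      refine h.trans (div_le_div_of_nonneg_right ?_ hz)
      nlinarith [mul_nonneg hC'.le hy]
    have up' : ∀ {x y z : ℝ}, x ≤ C' * y / z → 0 ≤ y → 0 ≤ z → x ≤ (C + C') * y / z := by
      intro x y z h hy hz
      refine h.trans (div_le_div_of_nonneg_right ?_ hz)
      nlinarith [mul_nonneg hC.le hy]
    have p0 : ∀ m n : ℕ, 0 ≤ cross m n := fun m n => by rw [e]; exact D0H96.RG.P_nonneg m n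
    have p1 : ∀ m n : ℕ, 0 ≤ 1 - cross m n := fun m n => by
      rw [e]
      linarith [D0H96.RG.P_le_one m n]
    refine ⟨c, C + C', hc, by positivity, ?_, ?_, ?_, ?_⟩
    · intro m n hn hm
      obtain ⟨a1, a2, a3⟩ := A1 m n hn hm
      exact ⟨a1, up a2 (p0 m n) (Nat.cast_nonneg n), up a3 (p0 m n) (by positivity)⟩
    · intro m n hm hmn
      obtain ⟨a1, a2, a3⟩ := A2 m n hm hmn
      exact ⟨a1, up a2 (p1 m n) (Nat.cast_nonneg m), up a3 (p1 m n) (by positivity)⟩
    · intro m n h hm hh hhn hnm hmn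
      have h1 := B m n hm (hh.trans hhn) (hnm.trans (by nlinarith)) (hmn.trans (by nlinarith)) h hh hhn
      have h2 : (0:ℝ) < h := by exact_mod_cast hh
      have h3 : 0 ≤ Real.log ((n:ℝ) / h) := by
        apply Real.log_nonneg
        rw [le_div_iff₀ h2, one_mul]
        exact_mod_cast hhn
      have h4 : C' * h * (1 + Real.log (n / h)) / (n:ℝ)^2 = C' * (h * (1 + Real.log (n / h))) / (n:ℝ)^2 := by
        ring
      have h5 : (C + C') * h * (1 + Real.log (n / h)) / (n:ℝ)^2 =
          (C + C') * (h * (1 + Real.log (n / h))) / (n:ℝ)^2 := by ring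
      rw [h4] at h1
      rw [h5]
      simp only [e]
      exact up' h1 (by positivity) (by positivity)
    · intro δ F hL a b ha hb hba
      obtain ⟨a1, a2, a3⟩ := A3 δ F hL a b ha hb hba
      have f0 := (D0H96.RG.lim_pos (eL δ F hL) ha hb).le
      refine ⟨a1, up a2 f0 hb.le, fun a' ha' hb' => up (a3 a' ha' hb') (abs_nonneg _) (by positivity), ?_⟩
      intro b' hab h1 h2
      have h3 := D0H96.RG.lim_mix hK hC' B (eL δ F hL) ha hb hba hab h1 h2
      have hs : 0 < b' - b := by linarith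
      have h6 : 0 ≤ Real.log (b / (b' - b)) := by
        apply Real.log_nonneg
        rw [le_div_iff₀ hs, one_mul]
        linarith
      have h4 : C' * (b' - b) * (1 + Real.log (b / (b' - b))) / b^2 =
          C' * ((b' - b) * (1 + Real.log (b / (b' - b)))) / b^2 := by ring
      have h5 : (C + C') * (b' - b) * (1 + Real.log (b / (b' - b))) / b^2 =
          (C + C') * ((b' - b) * (1 + Real.log (b / (b' - b)))) / b^2 := by ring
      rw [h4] at h3
      rw [h5]
      exact up' h3 (by positivity) (by positivity)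
  simp only [e]
  refine ⟨fun δ h1 h2 => ?_, fun δ F hL => ?_⟩
  · obtain ⟨φ, hφ, F, hF⟩ := D0H96.RG.exists_limit δ h1 h2
    refine ⟨φ, hφ, F, fun k => h1 _, h2.comp hφ.tendsto_atTop, fun a b ha hb => ?_⟩
    simp only [e]
    exact hF a b ha hb
  · have hL' := eL δ F hL
    refine ⟨D0H96.RG.contDiff hL', fun a b ha hb => ⟨D0H96.RG.lim_pos hL' ha hb,
      D0H96.RG.lim_dual hL' ha hb, ?_, (D0H96.RG.height_deriv hL' ha hb).2⟩⟩
    have h1 := (D0H96.RG.width_deriv hL' ha hb).2.neg
    rw [neg_neg] at h1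
    refine h1.congr (fun k => ?_)
    show -(D0H96.RG.Q ⌊a / δ k⌋₊ ⌊b / δ k⌋₊ / δ k) = _
    unfold D0H96.RG.Q
    ring

end Pool.Agent.Results.MP_35f495_pr.RectangleRegularity
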