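import Mathlib
import Pool.Agent.Y989.SD.Fin
import Pool.Agent.Y989.SD.Main
import Pool.Agent.D0H49.CC.Main

/-!
Critical bond percolation on `ε ℤ²` (`p = 1/2`) in a Jordan domain with `C^(1,α)` boundary: the
probability that two arbitrary disjoint continua of the closed domain (in the interior, touching the
boundary, or boundary arcs) are joined by an open path inside the domain is, up to constants which
depend only on the domain, an explicit conformally invariant function of the two continua.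
-/

set_option autoImplicit false
set_option maxHeartbeats 1000000

namespace Pool.Agent.Results.MP_35f495_pr.SmoothContinua

open MeasureTheory

/-- The square lattice: two points of `ℤ²` are adjacent when they differ by one in exactly one
coordinate. -/
def Z2 : SimpleGraph (ℤ × ℤ) where
  Adj u v := |u.1 - v.1| + |u.2 - v.2| = 1
  symm := ⟨fun u v h => by rw [abs_sub_comm v.1, abs_sub_comm v.2]; exact h⟩
  loopless := ⟨fun u h => by simp at h⟩

/-- Critical bond percolation: every edge of the square lattice is open (`true`) with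
probability `1/2`, independently of the other edges. -/
noncomputable def crit : Measure (Z2.edgeSet → Bool) :=
  Measure.infinitePi (fun _ => ProbabilityTheory.bernoulliMeasure true false
    ⟨1/2, by norm_num, by norm_num⟩)

/-- The position of the vertex `v` of the lattice `ε ℤ²` in the plane. -/
noncomputable def pos (ε : ℝ) (v : ℤ × ℤ) : ℂ := ⟨ε * v.1, ε * v.2⟩

/-- The graph of the open edges of `ε ℤ²` with both endpoints in `D`. -/
def openGraph (ε : ℝ) (D : Set ℂ) (ω : Z2.edgeSet → Bool) : SimpleGraph (ℤ × ℤ) :=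
  SimpleGraph.fromEdgeSet {e | (∃ h : e ∈ Z2.edgeSet, ω ⟨e, h⟩ = true) ∧ ∀ v ∈ e, pos ε v ∈ D}

/-- The lattice approximation of the subset `A` of `D`: the vertices of `ε ℤ²` in `D` at distance at
most `2 ε` from `A`. -/
def near (ε : ℝ) (D A : Set ℂ) : Set (ℤ × ℤ) :=
  {v | pos ε v ∈ D ∧ ∃ z ∈ A, dist (pos ε v) z ≤ 2 * ε}

/-- The connection probability: the probability that an open path of `ε ℤ²` in `D` joins `A` to
`B`. -/
noncomputable def cross (ε : ℝ) (D A B : Set ℂ) : ℝ :=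
  crit.real {ω | ∃ u ∈ near ε D A, ∃ v ∈ near ε D B, (openGraph ε D ω).Reachable u v}

/-- The closed unit disc. -/
def disc : Set ℂ := Metric.closedBall 0 1

/-- `f` parametrizes a Jordan domain with `C^(1,α)` boundary, `0 < α ≤ 1`: it is injective and
continuous on the closed unit disc, conformal in the open unit disc, and its derivative extends to a
Hölder continuous function `g` without zeros on the closed unit disc. (By the theorem of Kellogg and
Warschawski the Riemann maps onto Jordan domains with `C^(1,α)` boundary, `0 < α < 1`, have this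
property.) -/
def Smooth (f : ℂ → ℂ) : Prop :=
  Set.InjOn f disc ∧ ContinuousOn f disc ∧ ∃ (g : ℂ → ℂ) (M α : ℝ), 0 < α ∧ α ≤ 1 ∧
    (∀ z, ‖z‖ < 1 → HasDerivAt f (g z) z) ∧ (∀ z ∈ disc, g z ≠ 0) ∧
    ∀ z ∈ disc, ∀ w ∈ disc, ‖g z - g w‖ ≤ M * ‖z - w‖ ^ α

/-- A continuum of `D` which is not smaller than the mesh `ε`: a compact connected subset of `D` of
diameter at least `ε`. -/
def Continuum (ε : ℝ) (D K : Set ℂ) : Prop :=
  IsCompact K ∧ IsConnected K ∧ K ⊆ D ∧ ∃ x ∈ K, ∃ y ∈ K, ε ≤ dist x y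

/-- The four point function of the closed unit disc: `χ ^ (5/48) * min (1, η) ^ (11/48)`, where `χ`
is the absolute value of the cross-ratio of `p, p', q, q'`, and `η` is the quotient
`|1 - p p'*| |1 - q q'*| / (|p - q| |p' - q'|)`. It does not change under the automorphisms of the
disc. For four points of the unit circle `η = χ`, and it is `χ ^ (1/3)` or `χ ^ (5/48)`. -/
noncomputable def fourPoint (p p' q q' : ℂ) : ℝ :=
  (‖p - p'‖ * ‖q - q'‖ / (‖p - q‖ * ‖p' - q'‖)) ^ (5 / 48 : ℝ) *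
    (min 1 (‖1 - (starRingEnd ℂ) p * p'‖ * ‖1 - (starRingEnd ℂ) q * q'‖ /
      (‖p - q‖ * ‖p' - q'‖))) ^ (11 / 48 : ℝ)

/-- The conformal invariant of the two subsets `K`, `L` of the domain `f '' disc`: the supremum of
`min (1, fourPoint p p' q q')` over the points `p, p'` of `f⁻¹ K` and `q, q'` of `f⁻¹ L`. -/
noncomputable def invariant (f : ℂ → ℂ) (K L : Set ℂ) : ℝ :=
  sSup {r | ∃ p ∈ disc, ∃ p' ∈ disc, ∃ q ∈ disc, ∃ q' ∈ disc, f p ∈ K ∧ f p' ∈ K ∧ f q ∈ L ∧
    f q' ∈ L ∧ r = min 1 (fourPoint p p' q q')}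

/-- `φ` is a homeomorphism of `D` onto `D'` whose restriction to the interior is conformal. -/
def ConformalHomeo (D D' : Set ℂ) (φ : ℂ → ℂ) : Prop :=
  ContinuousOn φ D ∧ DifferentiableOn ℂ φ (interior D) ∧ Set.MapsTo φ D D' ∧
    Set.MapsTo φ (interior D) (interior D') ∧
    ∃ ψ : ℂ → ℂ, ContinuousOn ψ D' ∧ DifferentiableOn ℂ ψ (interior D') ∧ Set.MapsTo ψ D' D ∧
      Set.MapsTo ψ (interior D') (interior D) ∧ (∀ z ∈ D, ψ (φ z) = z) ∧ ∀ w ∈ D', φ (ψ w) = w

theorem invariant_eq (f : ℂ → ℂ) (K L : Set ℂ) :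
    invariant f K L = D0H49.CC.Psi (D0H49.CC.pl f K) (D0H49.CC.pl f L) := by
  unfold invariant D0H49.CC.Psi
  have hd : ∀ z : ℂ, z ∈ disc ↔ ‖z‖ ≤ 1 := fun z => by
    unfold disc
    rw [Metric.mem_closedBall, dist_zero_right]
  congr 1
  ext r
  constructor
  · rintro ⟨p, hp, p', hp', q, hq, q', hq', h1, h2, h3, h4, h5⟩
    exact ⟨p, ⟨(hd p).mp hp, h1⟩, p', ⟨(hd p').mp hp', h2⟩, q, ⟨(hd q).mp hq, h3⟩, q',
      ⟨(hd q').mp hq', h4⟩, h5⟩
  · rintro ⟨p, ⟨hp, h1⟩, p', ⟨hp', h2⟩, q, ⟨hq, h3⟩, q', ⟨hq', h4⟩, h5⟩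
    exact ⟨p, (hd p).mpr hp, p', (hd p').mpr hp', q, (hd q).mpr hq, q', (hd q').mpr hq', h1, h2,
      h3, h4, h5⟩

open Y989.SD in
theorem openGraph_adj {f : ℂ → ℂ} {ε : ℝ} (h : ∀ v, v ∈ TD f ε ↔ Y989.SD.pos ε v ∈ f '' Y989.SD.disc)
    (ω : Z2.edgeSet → Bool) (u v : ℤ × ℤ) :
    (openGraph ε (f '' disc) ω).Adj u v ↔
      H974.Adj (H974.FF (H973.ES (TD f ε)) ω : Set H974.Edg) u v := by
  have hs : ∀ w, pos ε w ∈ f '' disc ↔ w ∈ TD f ε := fun w => (h w).symm
  unfold openGraph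
  rw [SimpleGraph.fromEdgeSet_adj]
  constructor
  · rintro ⟨⟨⟨h, hω⟩, hV⟩, hne⟩
    have hadj : (H974.openGraph ω).Adj u v := by
      unfold H974.openGraph
      rw [SimpleGraph.fromEdgeSet_adj]
      exact ⟨⟨h, hω⟩, hne⟩
    obtain ⟨e, he, hcase⟩ := (H974.openGraph_adj ω u v).mp hadj
    have hu : u ∈ TD f ε := (hs u).mp (hV u (Sym2.mem_mk_left u v))
    have hv : v ∈ TD f ε := (hs v).mp (hV v (Sym2.mem_mk_right u v))
    refine ⟨e, ?_, hcase⟩
    rw [Finset.mem_coe, H974.mem_FF, H973.mem_ES]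
    refine ⟨?_, he⟩
    rcases hcase with ⟨h1, h2⟩ | ⟨h1, h2⟩
    · rw [h1, h2]; exact ⟨hu, hv⟩
    · rw [h1, h2]; exact ⟨hv, hu⟩
  · rintro ⟨e, he, hcase⟩
    rw [Finset.mem_coe, H974.mem_FF, H973.mem_ES] at he
    have hadj : (H974.openGraph ω).Adj u v := (H974.openGraph_adj ω u v).mpr ⟨e, he.2, hcase⟩
    unfold H974.openGraph at hadj
    rw [SimpleGraph.fromEdgeSet_adj] at hadj
    refine ⟨⟨hadj.1, ?_⟩, hadj.2⟩
    intro w hw
    rw [hs]
    rcases Sym2.mem_iff.mp hw with rfl | rfl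
    · rcases hcase with ⟨h1, h2⟩ | ⟨h1, h2⟩
      · rw [← h1]; exact he.1.1
      · rw [← h2]; exact he.1.2
    · rcases hcase with ⟨h1, h2⟩ | ⟨h1, h2⟩
      · rw [← h2]; exact he.1.2
      · rw [← h1]; exact he.1.1

theorem near_iff {f : ℂ → ℂ} {ε : ℝ}
    (h : ∀ v, v ∈ Y989.SD.TD f ε ↔ Y989.SD.pos ε v ∈ f '' Y989.SD.disc) {K : Set ℂ}
    (hK : K ⊆ f '' disc) (v : ℤ × ℤ) :
    v ∈ near ε (f '' disc) K ↔ D0H49.CC.Nr f ε (D0H49.CC.pl f K) v := by
  constructor
  · rintro ⟨h1, z, hz, h2⟩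
    refine ⟨(h v).mpr h1, ?_⟩
    obtain ⟨w, hw, rfl⟩ := hK hz
    have hw' : ‖w‖ ≤ 1 := by
      unfold disc at hw
      rwa [Metric.mem_closedBall, dist_zero_right] at hw
    exact ⟨w, ⟨hw', hz⟩, by rw [dist_eq_norm] at h2; exact h2⟩
  · rintro ⟨h1, w, ⟨hw, hwK⟩, h2⟩
    exact ⟨(h v).mp h1, f w, hwK, by rw [dist_eq_norm]; exact h2⟩

theorem cross_eq {f : ℂ → ℂ} {ε : ℝ}
    (h : ∀ v, v ∈ Y989.SD.TD f ε ↔ Y989.SD.pos ε v ∈ f '' Y989.SD.disc) {K L : Set ℂ}
    (hK : K ⊆ f '' disc) (hL : L ⊆ f '' disc) :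
    cross ε (f '' disc) K L = H974.Pr Pool.Agent.H160R2.CV.P (H973.ES (Y989.SD.TD f ε))
      (D0H49.CC.CnS (D0H49.CC.Nr f ε (D0H49.CC.pl f K)) (D0H49.CC.Nr f ε (D0H49.CC.pl f L))) := by
  have e : cross ε (f '' disc) K L = (H974.bondLaw H974.hlf).real
      {ω | ∃ u ∈ near ε (f '' disc) K, ∃ v ∈ near ε (f '' disc) L,
        (openGraph ε (f '' disc) ω).Reachable u v} := rfl
  rw [e]
  have key : ∀ (ω : Z2.edgeSet → Bool) (u v : ℤ × ℤ), (openGraph ε (f '' disc) ω).Reachable u v ↔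
      H974.Reach (H974.FF (H973.ES (Y989.SD.TD f ε)) ω : Set H974.Edg) u v := by
    intro ω u v
    rw [SimpleGraph.reachable_iff_reflTransGen]
    have : (openGraph ε (f '' disc) ω).Adj =
        H974.Adj (H974.FF (H973.ES (Y989.SD.TD f ε)) ω : Set H974.Edg) := by
      funext u v
      exact propext (openGraph_adj h ω u v)
    rw [this]
    rfl
  have e2 : {ω : Z2.edgeSet → Bool | ∃ u ∈ near ε (f '' disc) K, ∃ v ∈ near ε (f '' disc) L,
        (openGraph ε (f '' disc) ω).Reachable u v} =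
      {ω | (D0H49.CC.CnS (D0H49.CC.Nr f ε (D0H49.CC.pl f K)) (D0H49.CC.Nr f ε (D0H49.CC.pl f L)))
          (H974.FF (H973.ES (Y989.SD.TD f ε)) ω)} := by
    ext ω
    constructor
    · rintro ⟨u, hu, v, hv, hr⟩
      exact ⟨u, v, (near_iff h hK u).mp hu, (near_iff h hL v).mp hv, (key ω u v).mp hr⟩
    · rintro ⟨u, v, hu, hv, hr⟩
      exact ⟨u, (near_iff h hK u).mpr hu, v, (near_iff h hL v).mpr hv, (key ω u v).mpr hr⟩
  have h6 := H974.law_event H974.hlf (H973.ES (Y989.SD.TD f ε))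
    (D0H49.CC.CnS (D0H49.CC.Nr f ε (D0H49.CC.pl f K)) (D0H49.CC.Nr f ε (D0H49.CC.pl f L)))
  exact (congrArg (fun s => (H974.bondLaw H974.hlf).real s) e2).trans h6

theorem part_one (f : ℂ → ℂ) (hf : Smooth f) : ∃ c C ε₀ : ℝ, 0 < c ∧ 0 < C ∧ 0 < ε₀ ∧
    ∀ (ε : ℝ) (K L : Set ℂ), 0 < ε → ε ≤ ε₀ → Continuum ε (f '' disc) K →
      Continuum ε (f '' disc) L → Disjoint K L →
      c * invariant f K L ≤ cross ε (f '' disc) K L ∧
      cross ε (f '' disc) K L ≤ C * invariant f K L := by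
  obtain ⟨hi, hc, g, M, α, ha0, ha1, hd, hn, hg⟩ := hf
  have hW : Y989.SD.SmW f g M α := Y989.SD.smW_of ha0 ha1 hi hc hd hn hg
  obtain ⟨c, C, ε₀, hc, hC, hε₀, h⟩ := D0H49.CC.main_est hW
  refine ⟨c, C, ε₀, hc, hC, hε₀, ?_⟩
  intro ε K L hε hεε hK hL hKL
  obtain ⟨g1, h1⟩ := h ε hε hεε
  have := h1 K L hK.1 hK.2.1 hK.2.2.1 hL.1 hL.2.1 hL.2.2.1 hKL hK.2.2.2 hL.2.2.2
  rw [invariant_eq, cross_eq g1 hK.2.2.1 hL.2.2.1]
  exact this

/-- **Conformal invariance up to constants, for arbitrary continua.** (1) Let `D = f '' disc` be a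
Jordan domain with `C^(1,α)` boundary. There are constants `c, C, ε₀ > 0` such that for every mesh
`ε ≤ ε₀` and all disjoint continua `K`, `L` of `D` (compact connected subsets of the closed domain)
of diameter at least `ε`, the probability that critical bond percolation on `ε ℤ²` contains an open
path in `D` which joins `K` to `L` is between `c I` and `C I`, where `I` is the invariant of `K`
and `L`. (2) The invariant does not change under the homeomorphisms between closed domains which are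
conformal in the interior. (3) Consequently, for two such domains `D = f '' disc`, `D' = h '' disc`
there are `C, ε₀ > 0` such that for every such homeomorphism `φ` of `D` onto `D'`, all meshes
`ε, ε' ≤ ε₀` and all disjoint continua `K`, `L`, the connection probabilities of `K, L` in `D` and
of `φ K, φ L` in `D'` agree up to the factor `C`. -/
theorem result :
    (∀ f : ℂ → ℂ, Smooth f → ∃ c C ε₀ : ℝ, 0 < c ∧ 0 < C ∧ 0 < ε₀ ∧
      ∀ (ε : ℝ) (K L : Set ℂ), 0 < ε → ε ≤ ε₀ → Continuum ε (f '' disc) K →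
        Continuum ε (f '' disc) L → Disjoint K L →
        c * invariant f K L ≤ cross ε (f '' disc) K L ∧
        cross ε (f '' disc) K L ≤ C * invariant f K L) ∧
    (∀ f h φ : ℂ → ℂ, Smooth f → Smooth h → ConformalHomeo (f '' disc) (h '' disc) φ →
      ∀ K L : Set ℂ, K ⊆ f '' disc → L ⊆ f '' disc → Disjoint K L →
        invariant h (φ '' K) (φ '' L) = invariant f K L) ∧
    (∀ f h : ℂ → ℂ, Smooth f → Smooth h → ∃ C ε₀ : ℝ, 0 < C ∧ 0 < ε₀ ∧
      ∀ (φ : ℂ → ℂ) (ε ε' : ℝ) (K L : Set ℂ), ConformalHomeo (f '' disc) (h '' disc) φ →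
        0 < ε → ε ≤ ε₀ → 0 < ε' → ε' ≤ ε₀ → Continuum ε (f '' disc) K →
        Continuum ε (f '' disc) L → Continuum ε' (h '' disc) (φ '' K) →
        Continuum ε' (h '' disc) (φ '' L) → Disjoint K L →
        C⁻¹ * cross ε (f '' disc) K L ≤ cross ε' (h '' disc) (φ '' K) (φ '' L) ∧
        cross ε' (h '' disc) (φ '' K) (φ '' L) ≤ C * cross ε (f '' disc) K L) := by
  have part_two : ∀ f h φ : ℂ → ℂ, Smooth f → Smooth h →
      ConformalHomeo (f '' disc) (h '' disc) φ → ∀ K L : Set ℂ, K ⊆ f '' disc → L ⊆ f '' disc →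
      Disjoint K L → invariant h (φ '' K) (φ '' L) = invariant f K L := by
    intro f h φ hf hh hφ K L hK hL hKL
    obtain ⟨hi, hc, g, M, α, ha0, ha1, hd, hn, hg⟩ := hf
    obtain ⟨hi', hc', g', M', α', ha0', ha1', hd', hn', hg'⟩ := hh
    have hW : Y989.SD.SmW f g M α := Y989.SD.smW_of ha0 ha1 hi hc hd hn hg
    have hW' : Y989.SD.SmW h g' M' α' := Y989.SD.smW_of ha0' ha1' hi' hc' hd' hn' hg'
    rw [invariant_eq, invariant_eq]
    exact D0H49.CC.Psi_inv hW hW' hφ hK hL hKL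
  refine ⟨part_one, part_two, ?_⟩
  intro f h hf hh
  obtain ⟨c1, C1, e1, hc1, hC1, he1, h1⟩ := part_one f hf
  obtain ⟨c2, C2, e2, hc2, hC2, he2, h2⟩ := part_one h hh
  have t1 : 0 < C1 / c2 := by positivity
  have t2 : 0 < C2 / c1 := by positivity
  refine ⟨max (C1 / c2) (C2 / c1), min e1 e2, lt_max_of_lt_left t1, lt_min he1 he2, ?_⟩
  intro φ ε ε' K L hφ hε hεe hε' hεe' hK hL hK' hL' hKL
  have hKL' : Disjoint (φ '' K) (φ '' L) := by
    rw [Set.disjoint_left]
    rintro _ ⟨x, hx, rfl⟩ ⟨y, hy, hxy⟩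
    obtain ⟨-, -, -, -, ψ, -, -, -, -, i1, -⟩ := hφ
    have : x = y := by rw [← i1 x (hK.2.2.1 hx), ← i1 y (hL.2.2.1 hy), hxy]
    rw [this] at hx
    exact Set.disjoint_left.mp hKL hx hy
  obtain ⟨a1, a2⟩ := h1 ε K L hε (hεe.trans (min_le_left _ _)) hK hL hKL
  obtain ⟨b1, b2⟩ := h2 ε' (φ '' K) (φ '' L) hε' (hεe'.trans (min_le_right _ _)) hK' hL' hKL'
  rw [part_two f h φ hf hh hφ K L hK.2.2.1 hL.2.2.1 hKL] at b1 b2
  have x0 : 0 ≤ cross ε (f '' disc) K L := measureReal_nonneg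
  have y0 : 0 ≤ cross ε' (h '' disc) (φ '' K) (φ '' L) := measureReal_nonneg
  generalize cross ε (f '' disc) K L = x at *
  generalize cross ε' (h '' disc) (φ '' K) (φ '' L) = y at *
  generalize invariant f K L = I at *
  have hm : 0 < max (C1 / c2) (C2 / c1) := lt_max_of_lt_left t1
  constructor
  · rw [inv_mul_le_iff₀ hm]
    have k1 : x ≤ C1 / c2 * y := by
      rw [div_mul_eq_mul_div, le_div_iff₀ hc2]
      have := mul_le_mul_of_nonneg_left b1 hC1.le
      have := mul_le_mul_of_nonneg_left a2 hc2.le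
      nlinarith
    exact k1.trans (mul_le_mul_of_nonneg_right (le_max_left _ _) y0)
  · have k1 : y ≤ C2 / c1 * x := by
      rw [div_mul_eq_mul_div, le_div_iff₀ hc1]
      have := mul_le_mul_of_nonneg_left a1 hC2.le
      have := mul_le_mul_of_nonneg_left b2 hc1.le
      nlinarith
    exact k1.trans (mul_le_mul_of_nonneg_right (le_max_right _ _) x0)

end Pool.Agent.Results.MP_35f495_pr.SmoothContinua
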