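import Mathlib
import Pool.Agent.D0H95.KP.Fin
import Pool.Agent.Y989.SD.Fin

/-!
Critical bond percolation on `ε ℤ²` (`p = 1/2`) in a Jordan domain with `C^(1,α)` boundary: the
probability that `k` given vertices are connected inside the domain is, up to a factor `C ^ k`, an
explicit function of the conformal radii and the hyperbolic distances of the points, with the
exponents `5/48` (interior) and `1/3` (boundary), uniformly in the positions of the points (in the
bulk, near the boundary, near each other) and in the mesh.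

Files of the proof (`D0H95/KP`): `Abs`, `Good` (addition of a point in a general finite domain),
`Kpt`, `Prof` (the distance to the complement), `Tube`, `Loc`, `Arm` (one-arm probabilities near a
smooth boundary), `Net` (a macroscopic cluster), `Geo`, `Cov`, `Fin`. They use the windows of the
starting files for smooth domains (`Y989/SD`), the one-arm estimate (`H160R2/SA`) and the starting
files on `k`-point functions (`TH976`).
-/

set_option autoImplicit false

namespace Pool.Agent.Results.MP_35f495_pr.SmoothKPoint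

open MeasureTheory

/-- The square lattice: two points of `ℤ²` are adjacent when they differ by one in exactly one
coordinate. -/
def Z2 : SimpleGraph (ℤ × ℤ) where
  Adj u v := |u.1 - v.1| + |u.2 - v.2| = 1
  symm := ⟨fun u v h => by rw [abs_sub_comm v.1, abs_sub_comm v.2]; exact h⟩
  loopless := ⟨fun u h => by simp at h⟩

/-- Critical bond percolation: every edge of the square lattice is open (`true`) with
probability `1/2`, independently of the other edges. -/
noncomputable def crit : Measure (Z2.edgeSet → Bool) :=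
  Measure.infinitePi (fun _ => ProbabilityTheory.bernoulliMeasure true false
    ⟨1/2, by norm_num, by norm_num⟩)

/-- The position of the vertex `v` of the lattice `ε ℤ²` in the plane. -/
noncomputable def pos (ε : ℝ) (v : ℤ × ℤ) : ℂ := ⟨ε * v.1, ε * v.2⟩

/-- The graph of the open edges of `ε ℤ²` with both endpoints in `D`. -/
def openGraph (ε : ℝ) (D : Set ℂ) (ω : Z2.edgeSet → Bool) : SimpleGraph (ℤ × ℤ) :=
  SimpleGraph.fromEdgeSet {e | (∃ h : e ∈ Z2.edgeSet, ω ⟨e, h⟩ = true) ∧ ∀ v ∈ e, pos ε v ∈ D}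

/-- The probability that the vertices `x 0, …, x (k - 1)` are connected to each other by open paths
of `ε ℤ²` inside `D`. -/
noncomputable def conn (ε : ℝ) (D : Set ℂ) (x : ℕ → ℤ × ℤ) (k : ℕ) : ℝ :=
  crit.real {ω | ∀ i < k, ∀ j < k, (openGraph ε D ω).Reachable (x i) (x j)}

/-- The closed unit disc. -/
def disc : Set ℂ := Metric.closedBall 0 1

/-- `f` parametrizes a Jordan domain with `C^(1,α)` boundary, `0 < α ≤ 1`: it is injective and
continuous on the closed unit disc, conformal in the open unit disc, and its derivative extends to a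
Hölder continuous function `g` without zeros on the closed unit disc. (By the theorem of Kellogg and
Warschawski the Riemann maps onto Jordan domains with `C^(1,α)` boundary, `0 < α < 1`, have this
property.) -/
def Smooth (f : ℂ → ℂ) : Prop :=
  Set.InjOn f disc ∧ ContinuousOn f disc ∧ ∃ (g : ℂ → ℂ) (M α : ℝ), 0 < α ∧ α ≤ 1 ∧
    (∀ z, ‖z‖ < 1 → HasDerivAt f (g z) z) ∧ (∀ z ∈ disc, g z ≠ 0) ∧
    ∀ z ∈ disc, ∀ w ∈ disc, ‖g z - g w‖ ≤ M * ‖z - w‖ ^ α

/-- The conformal radius of the domain `f '' disc` seen from the point `f z`. -/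
noncomputable def crad (f : ℂ → ℂ) (z : ℂ) : ℝ := ‖deriv f z‖ * (1 - ‖z‖ ^ 2)

/-- `4 sinh² (ρ / 2)`, where `ρ` is the hyperbolic distance of the points `z`, `w` of the unit disc,
hence also the hyperbolic distance of `f z`, `f w` in the domain `f '' disc`. -/
noncomputable def X (z w : ℂ) : ℝ := 4 * ‖z - w‖ ^ 2 / ((1 - ‖z‖ ^ 2) * (1 - ‖w‖ ^ 2))

/-- The two-point function of the domain `f '' disc` at the points `f z`, `f w`. -/
noncomputable def G (f : ℂ → ℂ) (z w : ℂ) : ℝ :=
  (crad f z * crad f w * X z w) ^ (-(5 / 48) : ℝ) * (1 + X z w) ^ (-(11 / 48) : ℝ)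

/-- The `k`-point function of the domain `f '' disc` at the points `f (z i)`, `i < k`: the product,
over the points `z j` after the first two, of the maximum over the pairs `z i, z l` of previous
points of `(G (z j) (z i) * G (z j) (z l) / G (z i) (z l)) ^ (1/2)`. -/
noncomputable def F (f : ℂ → ℂ) (z : ℕ → ℂ) (k : ℕ) : ℝ :=
  G f (z 0) (z 1) * ∏ j ∈ Finset.Ico 2 k, ⨆ p : {p : Fin j × Fin j // p.1 < p.2},
    Real.sqrt (G f (z j) (z p.1.1) * G f (z j) (z p.1.2) / G f (z p.1.1) (z p.1.2))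

theorem openGraph_adj {f : ℂ → ℂ} {ε : ℝ}
    (h : ∀ v, v ∈ Y989.SD.TD f ε ↔ Y989.SD.pos ε v ∈ f '' Y989.SD.disc)
    (ω : Z2.edgeSet → Bool) (u v : ℤ × ℤ) :
    (openGraph ε (f '' disc) ω).Adj u v ↔
      H974.Adj (H974.opn ω ∩ TH976.dE (↑(Y989.SD.TD f ε) : Set (ℤ × ℤ))) u v := by
  have hs : ∀ w, pos ε w ∈ f '' disc ↔ w ∈ (↑(Y989.SD.TD f ε) : Set (ℤ × ℤ)) := fun w => by
    rw [Finset.mem_coe]
    exact (h w).symm
  unfold openGraph
  rw [SimpleGraph.fromEdgeSet_adj]
  constructor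
  · rintro ⟨⟨⟨h, hω⟩, hV⟩, hne⟩
    have hadj : (H974.openGraph ω).Adj u v := by
      unfold H974.openGraph
      rw [SimpleGraph.fromEdgeSet_adj]
      exact ⟨⟨h, hω⟩, hne⟩
    obtain ⟨e, he, hcase⟩ := (H974.openGraph_adj ω u v).mp hadj
    have hu := (hs u).mp (hV u (Sym2.mem_mk_left u v))
    have hv := (hs v).mp (hV v (Sym2.mem_mk_right u v))
    refine ⟨e, ⟨he, ?_⟩, hcase⟩
    rcases hcase with ⟨h1, h2⟩ | ⟨h1, h2⟩
    · exact ⟨by rw [h1]; exact hu, by rw [h2]; exact hv⟩
    · exact ⟨by rw [h1]; exact hv, by rw [h2]; exact hu⟩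
  · rintro ⟨e, ⟨he, hV⟩, hcase⟩
    have hadj : (H974.openGraph ω).Adj u v := (H974.openGraph_adj ω u v).mpr ⟨e, he, hcase⟩
    unfold H974.openGraph at hadj
    rw [SimpleGraph.fromEdgeSet_adj] at hadj
    refine ⟨⟨hadj.1, ?_⟩, hadj.2⟩
    intro w hw
    rw [hs]
    rcases Sym2.mem_iff.mp hw with rfl | rfl
    · rcases hcase with ⟨h1, h2⟩ | ⟨h1, h2⟩
      · rw [← h1]; exact hV.1
      · rw [← h2]; exact hV.2
    · rcases hcase with ⟨h1, h2⟩ | ⟨h1, h2⟩
      · rw [← h2]; exact hV.2
      · rw [← h1]; exact hV.1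

theorem conn_eq {f : ℂ → ℂ} {ε : ℝ}
    (h : ∀ v, v ∈ Y989.SD.TD f ε ↔ Y989.SD.pos ε v ∈ f '' Y989.SD.disc) (x : ℕ → ℤ × ℤ) (k : ℕ) :
    conn ε (f '' disc) x k =
      TH976.PD (↑(Y989.SD.TD f ε) : Set (ℤ × ℤ)) (H362P.Cn ((Finset.range k).image x)) := by
  have h0 : conn ε (f '' disc) x k = (H974.bondLaw H974.hlf).real
      {ω | ∀ i < k, ∀ j < k, (openGraph ε (f '' disc) ω).Reachable (x i) (x j)} := rfl
  have key : ∀ (ω : Z2.edgeSet → Bool) (u v : ℤ × ℤ), (openGraph ε (f '' disc) ω).Reachable u v ↔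
      H974.Reach (H974.opn ω ∩ TH976.dE (↑(Y989.SD.TD f ε) : Set (ℤ × ℤ))) u v := by
    intro ω u v
    rw [SimpleGraph.reachable_iff_reflTransGen]
    have : (openGraph ε (f '' disc) ω).Adj =
        H974.Adj (H974.opn ω ∩ TH976.dE (↑(Y989.SD.TD f ε) : Set (ℤ × ℤ))) := by
      funext u v
      exact propext (openGraph_adj h ω u v)
    rw [this]
    rfl
  rw [h0]
  unfold TH976.PD H362P.Cn
  congr 1
  ext ω
  constructor
  · intro h u hu v hv
    obtain ⟨i, hi, rfl⟩ := Finset.mem_image.mp hu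
    obtain ⟨j, hj, rfl⟩ := Finset.mem_image.mp hv
    exact (key ω _ _).mp (h i (Finset.mem_range.mp hi) j (Finset.mem_range.mp hj))
  · intro h i hi j hj
    exact (key ω _ _).mpr (h _ (Finset.mem_image_of_mem _ (Finset.mem_range.mpr hi)) _
      (Finset.mem_image_of_mem _ (Finset.mem_range.mpr hj)))

/-- **Connection probabilities of critical bond percolation in all `C^(1,α)` Jordan domains.** Let
`f` be a parametrization of a Jordan domain `D = f '' disc` with `C^(1,α)` boundary. There are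
constants `C, ε₀ > 0` such that for every mesh `ε ≤ ε₀`, every `k ≥ 2` and all distinct vertices
`x 0, …, x (k - 1)` of `ε ℤ²` in `D`, at distance at least `ε` from the boundary, the probability
that these vertices are connected by open paths inside `D` is `ε ^ (5 k / 48) F` up to a factor
`C ^ k`, where `F` is the `k`-point function of `D` at the points `x i = f (w i)`. -/
theorem result (f : ℂ → ℂ) (hf : Smooth f) : ∃ C ε₀ : ℝ, 1 ≤ C ∧ 0 < ε₀ ∧
    ∀ (ε : ℝ) (k : ℕ) (x : ℕ → ℤ × ℤ) (w : ℕ → ℂ), 0 < ε → ε ≤ ε₀ → 2 ≤ k →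
      (∀ i < k, ‖w i‖ < 1 ∧ f (w i) = pos ε (x i)) →
      (∀ i < k, ∀ z : ℂ, ‖z‖ = 1 → ε ≤ dist (pos ε (x i)) (f z)) →
      (∀ i < k, ∀ j < k, i ≠ j → x i ≠ x j) →
      (C ^ k)⁻¹ * (ε ^ (5 * k / 48 : ℝ) * F f w k) ≤ conn ε (f '' disc) x k ∧
      conn ε (f '' disc) x k ≤ C ^ k * (ε ^ (5 * k / 48 : ℝ) * F f w k) := by
  obtain ⟨hi, hc, g, M, α, ha0, ha1, hd, hn, hg⟩ := hf
  have hW : Y989.SD.SmW f g M α := Y989.SD.smW_of ha0 ha1 hi hc hd hn hg
  obtain ⟨C, ε₀, hC, hε₀, h⟩ := Pool.Agent.D0H95.KP.kpt_smooth hW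
  refine ⟨C, ε₀, hC, hε₀, ?_⟩
  intro ε k x w hε hεε hk hw hx hdist
  obtain ⟨g1, key⟩ := h ε hε hεε
  have h1 := key k x w hk (fun i hi => ⟨⟨w i, by
      show w i ∈ Metric.closedBall (0 : ℂ) 1
      rw [Metric.mem_closedBall, dist_zero_right]
      exact (hw i hi).1.le, (hw i hi).2⟩, fun z hz => by
      have := hx i hi z hz
      rw [dist_eq_norm] at this
      exact this⟩) hw hdist
  rw [conn_eq g1]
  have h0 := h1.k0
  refine ⟨?_, h1.l⟩
  rw [inv_mul_le_iff₀ h0]
  exact h1.r

end Pool.Agent.Results.MP_35f495_pr.SmoothKPoint
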